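import Mathlib
import Pool.Agent.Helper92.PO.Stmts

set_option autoImplicit false

namespace Pool.Agent.Helper92.PO

open Function Pool.Agent.Helper52.Poly

theorem peq_pref : ∀ (s t : T) (r r' : List Bool), s.code ++ r = t.code ++ r' → s = t ∧ r = r'
  | .leaf, .leaf, r, r', h => by
    refine ⟨rfl, ?_⟩
    simpa [T.code] using h
  | .leaf, .node a b, r, r', h => by
    simp [T.code] at h
  | .node a b, .leaf, r, r', h => by
    simp [T.code] at h
  | .node a b, .node a' b', r, r', h => by
    simp only [T.code, List.cons_append, List.append_assoc, List.cons.injEq, true_and] at h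
    obtain ⟨h1, h2⟩ := peq_pref a a' _ _ h
    obtain ⟨h3, h4⟩ := peq_pref b b' _ _ h2
    exact ⟨by rw [h1, h3], h4⟩

theorem peq_inj (s t : T) (h : s.code = t.code) : s = t :=
  (peq_pref s t [] [] (by rw [List.append_nil, List.append_nil, h])).1

/-- step of the comparison -/
def peqStep (s : (Bool × List Bool) × Bool) : Bool × List Bool :=
  ((s.1.1 && !(s.1.2.isEmpty)) && !(Bool.xor s.2 (s.1.2.headD false)), s.1.2.tail)

theorem peq_fold : ∀ (l r : List Bool) (ok : Bool),
    ((l.foldl (fun u x => peqStep (u, x)) (ok, r)).1 &&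
      (l.foldl (fun u x => peqStep (u, x)) (ok, r)).2.isEmpty) = (ok && decide (l = r))
  | [], r, ok => by
    cases r <;> simp
  | x :: l, [], ok => by
    rw [List.foldl_cons]
    have h : peqStep ((ok, []), x) = (false, []) := by simp [peqStep]
    rw [h, peq_fold l [] false]
    simp
  | x :: l, y :: r, ok => by
    rw [List.foldl_cons]
    have h : peqStep ((ok, y :: r), x) = (ok && !(Bool.xor x y), r) := by simp [peqStep]
    rw [h, peq_fold l r]
    cases x <;> cases y <;> simp

theorem peq_pfstep : PF peqStep := by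
  have h1 : PF (fun s : (Bool × List Bool) × Bool => s.1.1) := PF.fst' PF.fst
  have h2 : PF (fun s : (Bool × List Bool) × Bool => s.1.2) := PF.snd' PF.fst
  have h3 : PF (fun s : (Bool × List Bool) × Bool => s.2) := PF.snd
  exact PF.pair (PF.and (PF.and h1 (PF.not (PF.isEmpty h2)))
    (PF.not (PF.xor h3 (PF.head h2)))) (PF.tail h2)

theorem st_PEQ : ST_PEQ := by
  intro γ α _ _ _ hinj f g hf hg
  have h1 : PF (fun c => (code (f c) : List Bool)) := PF.ser.comp hf
  have h2 : PF (fun c => (code (g c) : List Bool)) := PF.ser.comp hg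
  have h3 := PF.foldlGrow (init := fun c : γ => (true, (code (g c) : List Bool)))
    (lst := fun c : γ => (code (f c) : List Bool)) (step := peqStep)
    (PF.pair (PF.const true) h2) h1 peq_pfstep 3 (fun c u x _ => by
      obtain ⟨ok, r⟩ := u
      have e1 : sz (peqStep ((ok, r), x)) = 1 + sz (peqStep ((ok, r), x)).1 +
        sz (peqStep ((ok, r), x)).2 := sz_pair _ _
      have e2 := sz_bool (peqStep ((ok, r), x)).1
      have e3 : sz (peqStep ((ok, r), x)).2 ≤ sz r := sz_tail_le r
      have e4 : sz (ok, r) = 1 + sz ok + sz r := sz_pair _ _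
      simp only [Polynomial.eval_ofNat]
      omega)
  refine (PF.and (PF.fst' h3) (PF.isEmpty (PF.snd' h3))).congr (fun c => ?_)
  congr 1
  rw [peq_fold, Bool.true_and]
  have h4 : (f c = g c) ↔ (code (f c) = code (g c)) := by
    constructor
    · intro h
      rw [h]
    · intro h
      exact hinj (peq_inj _ _ h)
  exact decide_eq_decide.2 h4

end Pool.Agent.Helper92.PO
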